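import Mathlib

set_option autoImplicit false
open MeasureTheory Filter Topology Set
open scoped ENNReal NNReal

namespace Pool.Agent.Results.MP_ae1cd8_an.Unbounded

/-! ### Semigroups -/

/-- A `C₀`-semigroup of bounded operators on a complex Banach space (only `t ≥ 0` matters). -/
structure C0Semigroup (X : Type*) [NormedAddCommGroup X] [NormedSpace ℂ X] where
  T : ℝ → X →L[ℂ] X
  zero : T 0 = ContinuousLinearMap.id ℂ X
  add : ∀ s t : ℝ, 0 ≤ s → 0 ≤ t → T (s + t) = (T s).comp (T t)
  cont : ∀ x : X, ContinuousOn (fun t => T t x) (Ici 0)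

/-- The relation `A` (the graph of an operator) is the generator of the semigroup:
`t⁻¹ (T t φ - φ) → ψ` as `t → 0+` if and only if `φ ∈ D(A)` and `A φ = ψ`. -/
def Generates {X : Type*} [NormedAddCommGroup X] [NormedSpace ℂ X] (A : X → X → Prop)
    (S : C0Semigroup X) : Prop :=
  ∀ φ ψ : X, Tendsto (fun t : ℝ => ((t⁻¹ : ℝ) : ℂ) • (S.T t φ - φ)) (𝓝[>] 0) (𝓝 ψ) ↔ A φ ψ

/-- Uniformly bounded semigroups. -/
def UniformlyBounded {X : Type*} [NormedAddCommGroup X] [NormedSpace ℂ X]
    (S : C0Semigroup X) : Prop :=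
  ∃ C : ℝ, ∀ t : ℝ, 0 ≤ t → ‖S.T t‖ ≤ C

/-! ### The data of the problem -/

section Data

variable {Ω : Type*} [MeasurableSpace Ω]

/-- The total rate `σ(x) = ∫ p(y, x) ν(dy)` in `[0, ∞]`. -/
noncomputable def rate (ν : Measure Ω) (p : Ω → Ω → ℝ) (x : Ω) : ℝ≥0∞ :=
  ∫⁻ y, ENNReal.ofReal (p y x) ∂ν

/-- The rate `σ̂_s(y) = ∫ p(y, x) ν(dx)` in `[0, ∞]`. -/
noncomputable def rateHat (ν : Measure Ω) (p : Ω → Ω → ℝ) (y : Ω) : ℝ≥0∞ :=
  ∫⁻ x, ENNReal.ofReal (p y x) ∂ν

end Data

/-- The standing assumptions: a `σ`-finite measure `ν`, a measurable kernel `p ≥ 0`, a weight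
`ω > 0` with detailed balance, `0 < σ < ∞` almost everywhere and condition (A). -/
structure Data (Ω : Type) [MeasurableSpace Ω] where
  ν : Measure Ω
  sigmaFinite : SigmaFinite ν
  p : Ω → Ω → ℝ
  p_measurable : Measurable (Function.uncurry p)
  p_nonneg : ∀ x y, 0 ≤ p x y
  ω : Ω → ℝ
  ω_measurable : Measurable ω
  ω_pos : ∀ x, 0 < ω x
  detailed_balance : ∀ x y, ω x * p x y = ω y * p y x
  rate_pos : ∀ᵐ x ∂ν, 0 < rate ν p x
  rate_lt_top : ∀ᵐ x ∂ν, rate ν p x < ⊤
  condA : ∃ C : ℝ≥0, ∀ y, rateHat ν p y ≤ C * (1 + rate ν p y)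

/-- The measure `μ = ω ν`. -/
noncomputable def Data.μ {Ω : Type} [MeasurableSpace Ω] (D : Data Ω) : Measure Ω :=
  D.ν.withDensity fun x => ENNReal.ofReal (D.ω x)

/-- The graph of `U₁ = M₁ + P` with domain `D(M₁) = {φ : σ φ ∈ L¹(μ)}`. -/
def Data.U₁ {Ω : Type} [MeasurableSpace Ω] (D : Data Ω) (φ ψ : Lp ℂ 1 D.μ) : Prop :=
  Integrable (fun x => ((rate D.ν D.p x).toReal : ℂ) * φ x) D.μ ∧
  ∀ᵐ x ∂D.μ, ψ x = -((rate D.ν D.p x).toReal : ℂ) * φ x + ∫ y, (D.p x y : ℂ) * φ y ∂D.ν

/-! ### A resolvent estimate for uniformly bounded semigroups -/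

lemma coe_smul_eq {X : Type*} [NormedAddCommGroup X] [NormedSpace ℂ X] [NormedSpace ℝ X]
    [IsScalarTower ℝ ℂ X] (r : ℝ) (x : X) : ((r : ℝ) : ℂ) • x = r • x := by
  rw [← one_smul ℂ x, ← smul_assoc, ← smul_assoc]
  simp

lemma resolvent_bound {X : Type*} [NormedAddCommGroup X] [NormedSpace ℂ X] [NormedSpace ℝ X]
    [IsScalarTower ℝ ℂ X] (S : C0Semigroup X) {C : ℝ} (hC : ∀ t : ℝ, 0 ≤ t → ‖S.T t‖ ≤ C)
    {φ ψ : X} (h : Tendsto (fun t : ℝ => ((t⁻¹ : ℝ) : ℂ) • (S.T t φ - φ)) (𝓝[>] 0) (𝓝 ψ))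
    {l : ℝ} (hl : 0 < l) : l * ‖φ‖ ≤ C * ‖l • φ - ψ‖ := by
  have hder : ∀ t : ℝ, 0 ≤ t → HasDerivWithinAt (fun s => S.T s φ) (S.T t ψ) (Ici t) t := by
    intro t ht
    rw [← hasDerivWithinAt_Ioi_iff_Ici, hasDerivWithinAt_iff_tendsto_slope' self_notMem_Ioi]
    have h1 : Tendsto (fun s : ℝ => s - t) (𝓝[>] t) (𝓝[>] 0) := by
      refine tendsto_nhdsWithin_iff.2 ⟨?_, ?_⟩
      · have : Tendsto (fun s : ℝ => s - t) (𝓝 t) (𝓝 (t - t)) := (by fun_prop : Continuous fun s : ℝ => s - t).tendsto t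
        rw [sub_self] at this
        exact this.mono_left nhdsWithin_le_nhds
      · filter_upwards [self_mem_nhdsWithin] with s hs
        exact sub_pos.2 (mem_Ioi.1 hs)
    have h2 := ((S.T t).continuous.tendsto ψ).comp (h.comp h1)
    refine h2.congr' ?_
    filter_upwards [self_mem_nhdsWithin] with s hs
    have hst : 0 < s - t := sub_pos.2 hs
    have e : S.T s = (S.T t).comp (S.T (s - t)) := by
      rw [← S.add t (s - t) ht hst.le]; congr 1; ring
    simp only [Function.comp_apply, slope, vsub_eq_sub]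
    rw [map_smul, map_sub, coe_smul_eq, e]
    rfl
  have hC0 : 0 ≤ C := (norm_nonneg _).trans (hC 0 le_rfl)
  set f : X := l • φ - ψ with hf
  have hmain : ∀ t : ℝ, 0 ≤ t → l * ‖φ‖ ≤ l * (Real.exp (-l * t) * (C * ‖φ‖)) + C * ‖f‖ := by
    intro t ht
    set g : ℝ → X := fun s => Real.exp (-l * s) • S.T s φ with hg
    have hgd : ∀ s ∈ Ico 0 t, HasDerivWithinAt (fun s => g s - g 0)
        (-(Real.exp (-l * s) • S.T s f)) (Ici s) s := by
      intro s hs
      have h1 : HasDerivWithinAt (fun s => Real.exp (-l * s)) (Real.exp (-l * s) * (-l)) (Ici s) s := by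
        have : HasDerivAt (fun s => -l * s) (-l) s := by
          simpa using (hasDerivAt_id s).const_mul (-l)
        exact this.exp.hasDerivWithinAt
      have h2 := (h1.smul (hder s hs.1)).sub_const (g 0)
      refine h2.congr_deriv ?_
      rw [hf, map_sub, ← coe_smul_eq l φ, map_smul, coe_smul_eq, smul_sub, smul_smul]
      rw [mul_neg, neg_smul]
      abel
    have hgc : ContinuousOn (fun s => g s - g 0) (Icc 0 t) := by
      refine ContinuousOn.sub (ContinuousOn.smul (by fun_prop) ((S.cont φ).mono Icc_subset_Ici_self))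
        continuousOn_const
    have hB : ∀ s, HasDerivAt (fun s => C * ‖f‖ * (1 - Real.exp (-l * s)) / l)
        (C * ‖f‖ * Real.exp (-l * s)) s := by
      intro s
      have h1 : HasDerivAt (fun s => -l * s) (-l) s := by
        simpa using (hasDerivAt_id s).const_mul (-l)
      have h2 := ((h1.exp.const_sub 1).const_mul (C * ‖f‖)).div_const l
      refine h2.congr_deriv ?_
      field_simp
    have key := image_norm_le_of_norm_deriv_right_le_deriv_boundary hgc hgd
      (by simp) hB (by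
        intro s hs
        rw [norm_neg, norm_smul, Real.norm_eq_abs, abs_of_pos (Real.exp_pos _), mul_comm]
        exact mul_le_mul_of_nonneg_right
          (((S.T s).le_opNorm f).trans (mul_le_mul_of_nonneg_right (hC s hs.1) (norm_nonneg _)))
          (Real.exp_pos _).le) (right_mem_Icc.2 ht)
    have hg0 : g 0 = φ := by
      simp [hg, S.zero]
    have hgt : ‖g t‖ ≤ Real.exp (-l * t) * (C * ‖φ‖) := by
      simp only [hg]
      rw [norm_smul, Real.norm_eq_abs, abs_of_pos (Real.exp_pos _)]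
      exact mul_le_mul_of_nonneg_left
        (((S.T t).le_opNorm φ).trans (mul_le_mul_of_nonneg_right (hC t ht) (norm_nonneg _)))
        (Real.exp_pos _).le
    have hk2 : ‖φ‖ ≤ ‖g t‖ + ‖g t - g 0‖ := by
      have : φ = g t - (g t - g 0) := by rw [hg0]; abel
      calc ‖φ‖ = ‖g t - (g t - g 0)‖ := by rw [← this]
        _ ≤ _ := norm_sub_le _ _
    have hk3 : l * (C * ‖f‖ * (1 - Real.exp (-l * t)) / l) ≤ C * ‖f‖ := by
      have e : l * (C * ‖f‖ * (1 - Real.exp (-l * t)) / l) = C * ‖f‖ * (1 - Real.exp (-l * t)) := by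
        field_simp
      rw [e]
      have : 0 ≤ C * ‖f‖ := by positivity
      nlinarith [Real.exp_pos (-l * t)]
    calc l * ‖φ‖ ≤ l * (Real.exp (-l * t) * (C * ‖φ‖) + C * ‖f‖ * (1 - Real.exp (-l * t)) / l) :=
          mul_le_mul_of_nonneg_left (hk2.trans (add_le_add hgt key)) hl.le
      _ ≤ _ := by rw [mul_add]; linarith
  have hlim : Tendsto (fun t : ℝ => l * (Real.exp (-l * t) * (C * ‖φ‖)) + C * ‖f‖) atTop
      (𝓝 (l * (0 * (C * ‖φ‖)) + C * ‖f‖)) := by
    refine ((Tendsto.mul_const _ ?_).const_mul l).add_const _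
    refine Real.tendsto_exp_atBot.comp ?_
    have : Tendsto (fun t : ℝ => l * t) atTop atTop := tendsto_id.const_mul_atTop hl
    exact (tendsto_neg_atTop_atBot.comp this).congr fun t => by simp
  have := ge_of_tendsto hlim ((eventually_ge_atTop 0).mono fun t ht => hmain t ht)
  simpa using this

/-! ### The example -/

/-- the reference measure on `ℕ`: mass `2⁻¹ ^ (k + 1)` at `k` -/
noncomputable def nu : Measure ℕ := Measure.count.withDensity fun k => (2 : ℝ≥0∞)⁻¹ ^ (k + 1)

/-- the weight `ω k = 1 / (k + 1)` -/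
noncomputable def om (k : ℕ) : ℝ := 1 / ((k : ℝ) + 1)

lemma om_pos (k : ℕ) : 0 < om k := by unfold om; positivity

lemma om_le_one (k : ℕ) : om k ≤ 1 := by
  unfold om
  rw [div_le_one (by positivity)]
  have : (0 : ℝ) ≤ k := k.cast_nonneg
  linarith

lemma lintegral_nu (f : ℕ → ℝ≥0∞) : ∫⁻ k, f k ∂nu = ∑' k, (2 : ℝ≥0∞)⁻¹ ^ (k + 1) * f k := by
  unfold nu
  rw [lintegral_withDensity_eq_lintegral_mul _ (Measurable.of_discrete) (Measurable.of_discrete),
    lintegral_count]
  rfl

instance : IsProbabilityMeasure nu := by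
  constructor
  rw [← setLIntegral_one, Measure.restrict_univ, lintegral_nu]
  simp only [mul_one]
  rw [ENNReal.tsum_geometric_add_one, ENNReal.one_sub_inv_two, inv_inv]
  exact ENNReal.inv_mul_cancel (by norm_num) (by norm_num)

lemma nu_singleton (k : ℕ) : nu {k} = (2 : ℝ≥0∞)⁻¹ ^ (k + 1) := by
  unfold nu
  rw [withDensity_apply _ (measurableSet_singleton k), Measure.restrict_singleton,
    Measure.count_singleton, one_smul, lintegral_dirac]

lemma nu_real_pos (k : ℕ) : 0 < nu.real {k} := by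
  rw [measureReal_def, nu_singleton]
  refine ENNReal.toReal_pos (pow_ne_zero _ (by simp)) (ENNReal.pow_ne_top (by simp))

lemma rate_eq (x : ℕ) : rate nu (fun _ y => om y) x = ENNReal.ofReal (om x) := by
  unfold rate
  simp

lemma rateHat_le (y : ℕ) : rateHat nu (fun _ y => om y) y ≤ 1 := by
  unfold rateHat
  calc ∫⁻ x, ENNReal.ofReal (om x) ∂nu ≤ ∫⁻ x, 1 ∂nu := by
        refine lintegral_mono fun x => ?_
        rw [ENNReal.ofReal_le_one]
        exact om_le_one x
    _ = 1 := by simp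

/-- The data: jumps from `y` occur at rate `ω y` and land according to the law `ν`. -/
noncomputable def theData : Data ℕ where
  ν := nu
  sigmaFinite := inferInstance
  p := fun _ y => om y
  p_measurable := Measurable.of_discrete
  p_nonneg := fun _ y => (om_pos y).le
  ω := om
  ω_measurable := Measurable.of_discrete
  ω_pos := om_pos
  detailed_balance := fun x y => mul_comm _ _
  rate_pos := Eventually.of_forall fun x => by
    rw [rate_eq]; exact ENNReal.ofReal_pos.2 (om_pos x)
  rate_lt_top := Eventually.of_forall fun x => by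
    rw [rate_eq]; exact ENNReal.ofReal_lt_top
  condA := ⟨1, fun y => (rateHat_le y).trans (by
    rw [ENNReal.coe_one, one_mul]; exact le_self_add)⟩

lemma mu_def : theData.μ = nu.withDensity fun x => ENNReal.ofReal (om x) := rfl

instance : IsFiniteMeasure theData.μ := by
  rw [mu_def]
  refine isFiniteMeasure_withDensity_ofReal (f := om) ?_
  exact (Integrable.of_bound (μ := nu) (C := 1) Measurable.of_discrete.aestronglyMeasurable
    (Eventually.of_forall fun x => by
      rw [Real.norm_eq_abs, abs_of_pos (om_pos x)]; exact om_le_one x)).2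

lemma integral_mu {E : Type*} [NormedAddCommGroup E] [NormedSpace ℝ E] (f : ℕ → E) :
    ∫ x, f x ∂theData.μ = ∫ x, om x • f x ∂nu := by
  rw [mu_def, integral_withDensity_eq_integral_toReal_smul Measurable.of_discrete
    (Eventually.of_forall fun x => ENNReal.ofReal_lt_top)]
  refine integral_congr_ae (Eventually.of_forall fun x => ?_)
  simp only [ENNReal.toReal_ofReal (om_pos x).le]

lemma integrable_inv_om : Integrable (fun x => (om x)⁻¹) nu := by
  refine ⟨Measurable.of_discrete.aestronglyMeasurable, ?_⟩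
  rw [hasFiniteIntegral_iff_ofReal (Eventually.of_forall fun x => (inv_pos.2 (om_pos x)).le),
    lintegral_nu]
  have h : ∀ k : ℕ, (2 : ℝ≥0∞)⁻¹ ^ (k + 1) * ENNReal.ofReal (om k)⁻¹ =
      ENNReal.ofReal ((1 / 2 : ℝ) ^ (k + 1) * (om k)⁻¹) := by
    intro k
    rw [ENNReal.ofReal_mul (by positivity), ENNReal.ofReal_pow (by positivity)]
    congr 2
    rw [one_div, ENNReal.ofReal_inv_of_pos (by norm_num)]
    norm_num
  simp only [h]
  have hs : Summable fun k : ℕ => (1 / 2 : ℝ) ^ (k + 1) * (om k)⁻¹ := by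
    have h1 : Summable fun k : ℕ => ((k : ℝ) ^ 1 * (1 / 2 : ℝ) ^ k) :=
      summable_pow_mul_geometric_of_norm_lt_one 1 (by norm_num)
    have h2 : Summable fun k : ℕ => (1 / 2 : ℝ) ^ k :=
      summable_geometric_of_lt_one (by norm_num) (by norm_num)
    refine ((h1.add h2).mul_left (1 / 2)).congr fun k => ?_
    unfold om
    rw [one_div, one_div, inv_inv, pow_succ]
    ring
  exact hs.tsum_ofReal_lt_top

lemma integrable_bdd {E : Type*} [NormedAddCommGroup E] (μ : Measure ℕ) [IsFiniteMeasure μ]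
    {f : ℕ → E} {C : ℝ} (h : ∀ x, ‖f x‖ ≤ C) : Integrable f μ :=
  Integrable.of_bound StronglyMeasurable.of_discrete.aestronglyMeasurable C
    (Eventually.of_forall h)

lemma norm_toL1_eq {f : ℕ → ℂ} {μ : Measure ℕ} (hf : Integrable f μ) :
    ‖hf.toL1 f‖ = ∫ x, ‖f x‖ ∂μ := by
  rw [L1.norm_eq_integral_norm]
  exact integral_congr_ae (hf.coeFn_toL1.fun_comp norm)

/-! ### The generator is a bounded operator -/

lemma rate_toReal (x : ℕ) : ((rate theData.ν theData.p x).toReal : ℂ) = (om x : ℂ) := by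
  have : rate theData.ν theData.p x = ENNReal.ofReal (om x) := rate_eq x
  rw [this, ENNReal.toReal_ofReal (om_pos x).le]

lemma integrable_om_mul {φ : ℕ → ℂ} (hφ : Integrable φ theData.μ) :
    Integrable (fun x => (om x : ℂ) * φ x) theData.μ :=
  hφ.bdd_mul (c := 1) StronglyMeasurable.of_discrete.aestronglyMeasurable
    (Eventually.of_forall fun x => by
      rw [Complex.norm_real, Real.norm_eq_abs, abs_of_pos (om_pos x)]; exact om_le_one x)

lemma integrable_B (φ : Lp ℂ 1 theData.μ) :
    Integrable (fun x => -(om x : ℂ) * φ x + ∫ y, φ y ∂theData.μ) theData.μ := by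
  have h := ((integrable_om_mul (L1.integrable_coeFn φ)).neg).add
    (integrable_const (μ := theData.μ) (∫ y, φ y ∂theData.μ))
  refine h.congr (Eventually.of_forall fun x => ?_)
  simp

lemma jump_integral (φ : ℕ → ℂ) (x : ℕ) :
    ∫ y, (theData.p x y : ℂ) * φ y ∂theData.ν = ∫ y, φ y ∂theData.μ := by
  rw [integral_mu]
  refine integral_congr_ae (Eventually.of_forall fun y => ?_)
  show (om y : ℂ) * φ y = om y • φ y
  rw [Complex.real_smul]

/-- the bounded operator `φ ↦ - ω φ + ∫ φ dμ` on `L¹(μ)` -/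
noncomputable def B : Lp ℂ 1 theData.μ →L[ℂ] Lp ℂ 1 theData.μ :=
  LinearMap.mkContinuous
    { toFun := fun φ => (integrable_B φ).toL1 _
      map_add' := by
        intro φ χ
        rw [← Integrable.toL1_add]
        refine (Integrable.toL1_eq_toL1_iff _ _ _ _).2 ?_
        have h1 : ∫ y, (φ + χ : Lp ℂ 1 theData.μ) y ∂theData.μ =
            (∫ y, φ y ∂theData.μ) + ∫ y, χ y ∂theData.μ := by
          rw [← integral_add (L1.integrable_coeFn φ) (L1.integrable_coeFn χ)]
          exact integral_congr_ae (Lp.coeFn_add φ χ)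
        filter_upwards [Lp.coeFn_add φ χ] with x hx
        rw [hx, h1]
        simp only [Pi.add_apply]
        ring
      map_smul' := by
        intro c φ
        rw [← Integrable.toL1_smul]
        refine (Integrable.toL1_eq_toL1_iff _ _ _ _).2 ?_
        have h1 : ∫ y, (c • φ : Lp ℂ 1 theData.μ) y ∂theData.μ = c * ∫ y, φ y ∂theData.μ := by
          rw [← integral_const_mul]
          exact integral_congr_ae (Lp.coeFn_smul c φ)
        filter_upwards [Lp.coeFn_smul c φ] with x hx
        rw [hx, h1]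
        simp only [Pi.smul_apply, smul_eq_mul, RingHom.id_apply]
        ring }
    (1 + theData.μ.real univ) (by
      intro φ
      simp only [LinearMap.coe_mk, AddHom.coe_mk]
      rw [norm_toL1_eq, L1.norm_eq_integral_norm φ]
      have h1 := L1.integrable_coeFn φ
      have h2 : Integrable (fun x => ‖φ x‖ + ‖∫ y, φ y ∂theData.μ‖) theData.μ :=
        h1.norm.add (integrable_const _)
      calc ∫ x, ‖-(om x : ℂ) * φ x + ∫ y, φ y ∂theData.μ‖ ∂theData.μ
          ≤ ∫ x, (‖φ x‖ + ‖∫ y, φ y ∂theData.μ‖) ∂theData.μ := by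
            refine integral_mono (integrable_B φ).norm h2 fun x => ?_
            refine (norm_add_le _ _).trans (add_le_add ?_ le_rfl)
            rw [norm_mul, norm_neg, Complex.norm_real, Real.norm_eq_abs, abs_of_pos (om_pos x)]
            exact mul_le_of_le_one_left (norm_nonneg _) (om_le_one x)
        _ = (∫ x, ‖φ x‖ ∂theData.μ) + theData.μ.real univ * ‖∫ y, φ y ∂theData.μ‖ := by
            rw [integral_add h1.norm (integrable_const _), integral_const, smul_eq_mul]
        _ ≤ (1 + theData.μ.real univ) * ∫ x, ‖φ x‖ ∂theData.μ := by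
            rw [add_mul, one_mul]
            gcongr
            exact norm_integral_le_integral_norm _)

lemma B_ae (φ : Lp ℂ 1 theData.μ) :
    ∀ᵐ x ∂theData.μ, B φ x = -(om x : ℂ) * φ x + ∫ y, φ y ∂theData.μ :=
  Integrable.coeFn_toL1 (integrable_B φ)

lemma U₁_iff (φ ψ : Lp ℂ 1 theData.μ) : theData.U₁ φ ψ ↔ B φ = ψ := by
  unfold Data.U₁
  simp only [rate_toReal, jump_integral]
  constructor
  · rintro ⟨_, h⟩
    refine Lp.ext ?_
    filter_upwards [h, B_ae φ] with x h1 h2
    rw [h1, h2]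
  · rintro rfl
    exact ⟨integrable_om_mul (L1.integrable_coeFn φ), B_ae φ⟩

/-- the semigroup `exp (t B)` -/
noncomputable def semigroup : C0Semigroup (Lp ℂ 1 theData.μ) where
  T := fun t => NormedSpace.exp ((t : ℂ) • B)
  zero := by
    simp only [Complex.ofReal_zero, zero_smul, NormedSpace.exp_zero]
    rfl
  add := by
    intro s t _ _
    let _ : NormedAlgebra ℚ (Lp ℂ 1 theData.μ →L[ℂ] Lp ℂ 1 theData.μ) :=
      NormedAlgebra.restrictScalars ℚ ℂ _
    rw [Complex.ofReal_add, add_smul, NormedSpace.exp_add_of_commute]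
    · rfl
    · exact ((Commute.refl B).smul_left _).smul_right _
  cont := by
    intro x
    let _ : NormedAlgebra ℚ (Lp ℂ 1 theData.μ →L[ℂ] Lp ℂ 1 theData.μ) :=
      NormedAlgebra.restrictScalars ℚ ℂ _
    have h : Continuous fun t : ℝ => NormedSpace.exp ((t : ℂ) • B) :=
      NormedSpace.exp_continuous.comp (by fun_prop)
    exact (h.clm_apply continuous_const).continuousOn

lemma semigroup_tendsto (φ : Lp ℂ 1 theData.μ) :
    Tendsto (fun t : ℝ => ((t⁻¹ : ℝ) : ℂ) • (semigroup.T t φ - φ)) (𝓝[>] 0) (𝓝 (B φ)) := by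
  have h := hasDerivAt_exp_smul_const (𝕂 := ℂ) B 0
  rw [zero_smul, NormedSpace.exp_zero, one_mul, hasDerivAt_iff_tendsto_slope] at h
  have h1 : Tendsto (fun t : ℝ => (t : ℂ)) (𝓝[>] 0) (𝓝[≠] 0) := by
    refine tendsto_nhdsWithin_iff.2 ⟨?_, ?_⟩
    · have : Tendsto (fun t : ℝ => (t : ℂ)) (𝓝 0) (𝓝 ((0 : ℝ) : ℂ)) :=
        Complex.continuous_ofReal.tendsto 0
      rw [Complex.ofReal_zero] at this
      exact this.mono_left nhdsWithin_le_nhds
    · filter_upwards [self_mem_nhdsWithin] with s hs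
      have : s ≠ 0 := (mem_Ioi.1 hs).ne'
      simpa using this
  have h2 := h.comp h1
  have h3 : Tendsto (fun A : Lp ℂ 1 theData.μ →L[ℂ] Lp ℂ 1 theData.μ => A φ) (𝓝 B) (𝓝 (B φ)) :=
    (by fun_prop : Continuous fun A : Lp ℂ 1 theData.μ →L[ℂ] Lp ℂ 1 theData.μ => A φ).tendsto B
  refine (h3.comp h2).congr fun t => ?_
  simp only [Function.comp_apply, slope, vsub_eq_sub, sub_zero, zero_smul, NormedSpace.exp_zero,
    Complex.ofReal_inv]
  rfl

lemma semigroup_generates : Generates theData.U₁ semigroup := by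
  intro φ ψ
  rw [U₁_iff]
  constructor
  · intro h
    exact tendsto_nhds_unique (semigroup_tendsto φ) h
  · rintro rfl
    exact semigroup_tendsto φ

/-! ### Unboundedness -/

/-- the indicator of `{k}` -/
noncomputable def ind (k x : ℕ) : ℝ := if x = k then 1 else 0

lemma integral_ind_mul (k : ℕ) (g : ℕ → ℝ) : ∫ x, ind k x * g x ∂nu = nu.real {k} * g k := by
  have e : (fun x => ind k x * g x) = ({k} : Set ℕ).indicator (fun _ => g k) := by
    funext x
    by_cases hx : x = k
    · simp [ind, hx]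
    · simp [ind, hx]
  rw [e, integral_indicator (measurableSet_singleton k), setIntegral_const, smul_eq_mul]

lemma bound_of_uniform {C : ℝ} (S : C0Semigroup (Lp ℂ 1 theData.μ)) (hS : Generates theData.U₁ S)
    (hC : ∀ t : ℝ, 0 ≤ t → ‖S.T t‖ ≤ C) (k : ℕ) :
    1 ≤ 2 * C * (∫ x, (om x)⁻¹ ∂nu) * om k := by
  set l : ℝ := om k with hl
  have hlpos : 0 < l := om_pos k
  have hC0 : 0 ≤ C := (norm_nonneg _).trans (hC 0 le_rfl)
  set w : ℝ := nu.real {k} with hw
  have hwpos : 0 < w := nu_real_pos k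
  have hden : ∀ x, 0 < l + om x := fun x => add_pos hlpos (om_pos x)
  have hbound : ∀ x, ‖(l + om x)⁻¹‖ ≤ l⁻¹ := fun x => by
    rw [Real.norm_eq_abs, abs_of_pos (inv_pos.2 (hden x))]
    exact inv_anti₀ hlpos (by linarith [om_pos x])
  have hint1 : Integrable (fun x => (l + om x)⁻¹) nu := integrable_bdd nu hbound
  set I : ℝ := ∫ x, (l + om x)⁻¹ ∂nu with hI
  have hIle : I ≤ ∫ x, (om x)⁻¹ ∂nu :=
    integral_mono hint1 integrable_inv_om fun x => inv_anti₀ (om_pos x) (by linarith)
  have hIpos : 0 < I := by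
    have h1 : ∫ x, (l + 1)⁻¹ ∂nu ≤ I := by
      refine integral_mono (integrable_const _) hint1 fun x => ?_
      exact inv_anti₀ (hden x) (by linarith [om_le_one x])
    rw [integral_const, probReal_univ, one_smul] at h1
    exact lt_of_lt_of_le (by positivity) h1
  set m : ℝ := w * l / ((l + l) * (l * I)) with hm
  have hmpos : 0 < m := by positivity
  -- the density
  set f : ℕ → ℝ := fun x => (ind k x + m) * (l + om x)⁻¹ with hf
  have hind0 : ∀ x, 0 ≤ ind k x := fun x => by unfold ind; split_ifs <;> norm_num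
  have hind1 : ∀ x, ind k x ≤ 1 := fun x => by unfold ind; split_ifs <;> norm_num
  have hf0 : ∀ x, 0 ≤ f x := fun x =>
    mul_nonneg (add_nonneg (hind0 x) hmpos.le) (inv_pos.2 (hden x)).le
  have hfb : ∀ x, ‖f x‖ ≤ (1 + m) * l⁻¹ := fun x => by
    simp only [hf]
    rw [norm_mul, Real.norm_eq_abs (ind k x + m), abs_of_nonneg (add_nonneg (hind0 x) hmpos.le)]
    exact mul_le_mul (by linarith [hind1 x]) (hbound x) (norm_nonneg _) (by positivity)
  have hfc : Integrable (fun x => ((f x : ℝ) : ℂ)) theData.μ :=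
    integrable_bdd _ (C := (1 + m) * l⁻¹) fun x => by rw [Complex.norm_real]; exact hfb x
  -- the key identity
  have key : ∫ x, om x * f x ∂nu = m := by
    have e1 : (fun x => om x * f x) =
        fun x => ind k x * (om x * (l + om x)⁻¹) + m * (1 - l * (l + om x)⁻¹) := by
      funext x
      have := (hden x).ne'
      simp only [hf]
      field_simp
      ring
    have i1 : Integrable (fun x => ind k x * (om x * (l + om x)⁻¹)) nu :=
      integrable_bdd nu (C := l⁻¹) fun x => by
        rw [norm_mul, norm_mul, Real.norm_eq_abs, Real.norm_eq_abs, abs_of_nonneg (hind0 x),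
          abs_of_pos (om_pos x)]
        calc ind k x * (om x * ‖(l + om x)⁻¹‖) ≤ 1 * (1 * l⁻¹) := by
              refine mul_le_mul (hind1 x) ?_ (by have := om_pos x; positivity) zero_le_one
              exact mul_le_mul (om_le_one x) (hbound x) (norm_nonneg _) zero_le_one
          _ = l⁻¹ := by ring
    have i2 : Integrable (fun x => m * (1 - l * (l + om x)⁻¹)) nu :=
      ((integrable_const _).sub (hint1.const_mul l)).const_mul m
    rw [e1, integral_add i1 i2, integral_ind_mul, integral_const_mul,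
      integral_sub (integrable_const _) (hint1.const_mul l), integral_const_mul, integral_const,
      probReal_univ, one_smul, ← hI, ← hl, ← hw]
    have e2 : w * (l * (l + l)⁻¹) = m * (l * I) := by
      rw [hm]
      field_simp
    rw [e2]
    ring
  set φ : Lp ℂ 1 theData.μ := hfc.toL1 _ with hφ
  have hφint : ∫ y, φ y ∂theData.μ = (m : ℂ) := by
    rw [integral_congr_ae hfc.coeFn_toL1, integral_mu, ← key, ← integral_complex_ofReal]
    refine integral_congr_ae (Eventually.of_forall fun x => ?_)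
    simp only [Complex.real_smul]
    push_cast
    rfl
  have hφnorm : ‖φ‖ = m := by
    rw [hφ, norm_toL1_eq, integral_mu, ← key]
    refine integral_congr_ae (Eventually.of_forall fun x => ?_)
    simp only [smul_eq_mul]
    rw [Complex.norm_real, Real.norm_eq_abs, abs_of_nonneg (hf0 x)]
  have hgen : Tendsto (fun t : ℝ => ((t⁻¹ : ℝ) : ℂ) • (S.T t φ - φ)) (𝓝[>] 0) (𝓝 (B φ)) :=
    (hS φ (B φ)).2 ((U₁_iff φ (B φ)).2 rfl)
  have hres := resolvent_bound S hC hgen hlpos
  -- `l φ - B φ` is the indicator of `{k}`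
  have hindc : Integrable (fun x => ((ind k x : ℝ) : ℂ)) theData.μ :=
    integrable_bdd _ (C := 1) fun x => by
      rw [Complex.norm_real, Real.norm_eq_abs, abs_of_nonneg (hind0 x)]; exact hind1 x
  have hdiff : l • φ - B φ = hindc.toL1 _ := by
    refine Lp.ext ?_
    filter_upwards [Lp.coeFn_sub (l • φ) (B φ), Lp.coeFn_smul l φ, B_ae φ, hfc.coeFn_toL1,
      hindc.coeFn_toL1] with x h1 h2 h3 h4 h5
    rw [h1, Pi.sub_apply, h2, Pi.smul_apply, h3, hφint, h5, hφ, h4, Complex.real_smul]
    have h6 : l * f x + om x * f x - m = ind k x := by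
      have := (hden x).ne'
      simp only [hf]
      field_simp
      ring
    rw [← h6]
    push_cast
    ring
  have hindnorm : ‖l • φ - B φ‖ = w * l := by
    rw [hdiff, norm_toL1_eq, integral_mu]
    have e : (fun x => om x • ‖((ind k x : ℝ) : ℂ)‖) = fun x => ind k x * om x := by
      funext x
      rw [Complex.norm_real, Real.norm_eq_abs, abs_of_nonneg (hind0 x), smul_eq_mul, mul_comm]
    rw [e, integral_ind_mul]
  rw [hφnorm, hindnorm] at hres
  have h7 : l * m = w * l / ((l + l) * I) := by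
    rw [hm]
    field_simp
  rw [h7, div_le_iff₀ (by positivity)] at hres
  have h8 : 1 ≤ C * ((l + l) * I) := by
    have h9 : (w * l) * 1 ≤ (w * l) * (C * ((l + l) * I)) := by linarith
    exact le_of_mul_le_mul_left h9 (by positivity)
  have h10 : C * ((l + l) * I) ≤ C * ((l + l) * ∫ x, (om x)⁻¹ ∂nu) := by
    gcongr
  calc (1 : ℝ) ≤ C * ((l + l) * ∫ x, (om x)⁻¹ ∂nu) := h8.trans h10
    _ = _ := by ring

lemma om_tendsto : Tendsto om atTop (𝓝 0) := tendsto_one_div_add_atTop_nhds_zero_nat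

lemma not_uniform (S : C0Semigroup (Lp ℂ 1 theData.μ)) (hS : Generates theData.U₁ S) :
    ¬ UniformlyBounded S := by
  rintro ⟨C, hC⟩
  have h := om_tendsto.const_mul (2 * C * (∫ x, (om x)⁻¹ ∂nu))
  rw [mul_zero] at h
  have := ge_of_tendsto h (Eventually.of_forall fun k => bound_of_uniform S hS hC k)
  linarith

lemma inv_om_integrable_mu : Integrable (fun x => (theData.ω x)⁻¹) theData.μ := by
  rw [mu_def, integrable_withDensity_iff_integrable_smul' Measurable.of_discrete
    (Eventually.of_forall fun x => ENNReal.ofReal_lt_top)]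
  refine (integrable_const (1 : ℝ)).congr (Eventually.of_forall fun x => ?_)
  show (1 : ℝ) = (ENNReal.ofReal (om x)).toReal • (om x)⁻¹
  rw [ENNReal.toReal_ofReal (om_pos x).le, smul_eq_mul, mul_inv_cancel₀ (om_pos x).ne']

/-- **Theorem.** There are data `(ℕ, ν, p, ω)` satisfying all the assumptions (detailed balance, no
absorption, condition (A)) with `ω⁻¹ ∈ L¹(μ)`, such that `U₁` generates a `C₀`-semigroup on
`L¹(μ)`, and no `C₀`-semigroup generated by `U₁` is uniformly bounded. -/
theorem result : ∃ D : Data ℕ, Integrable (fun x => (D.ω x)⁻¹) D.μ ∧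
    (∃ S : C0Semigroup (Lp ℂ 1 D.μ), Generates D.U₁ S) ∧
    ∀ S : C0Semigroup (Lp ℂ 1 D.μ), Generates D.U₁ S → ¬ UniformlyBounded S :=
  ⟨theData, inv_om_integrable_mu, ⟨semigroup, semigroup_generates⟩, not_uniform⟩

end Pool.Agent.Results.MP_ae1cd8_an.Unbounded
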